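import Mathlib

namespace Pool.Agent.Results.MP_a3089e_lc.NotGalvin

open Cardinal Set

theorem closed_mem (κ : Cardinal.{0}) (X : Type) [Nonempty X]
    (U : Ultrafilter {x : Set X // Cardinal.mk x < κ})
    (hf : ∀ a : X, {x : {x : Set X // Cardinal.mk x < κ} | a ∈ x.1} ∈ U)
    (hn : ∀ f : {x : Set X // Cardinal.mk x < κ} → X,
        {x : {x : Set X // Cardinal.mk x < κ} | f x ∈ x.1} ∈ U →
        ∃ a : X, {x : {x : Set X // Cardinal.mk x < κ} | f x = a} ∈ U) (g : X → X) :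
    {x : {x : Set X // Cardinal.mk x < κ} | ∀ a ∈ x.1, g a ∈ x.1} ∈ U := by
  by_contra h
  have h1 := Ultrafilter.compl_mem_iff_notMem.2 h
  have h2 : ∀ x : {x : Set X // Cardinal.mk x < κ}, ∃ a : X,
      (¬ ∀ a ∈ x.1, g a ∈ x.1) → a ∈ x.1 ∧ g a ∉ x.1 := by
    intro x
    by_cases c : ∀ a ∈ x.1, g a ∈ x.1
    · exact ⟨Classical.arbitrary X, fun e => absurd c e⟩
    · push Not at c
      obtain ⟨a, h1, h2⟩ := c
      exact ⟨a, fun _ => ⟨h1, h2⟩⟩
  choose f hf2 using h2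
  obtain ⟨a, ha⟩ := hn f (Filter.mem_of_superset h1 fun x hx => (hf2 x hx).1)
  obtain ⟨x, ⟨x1, x2⟩, x3⟩ :=
    Ultrafilter.nonempty_of_mem (Filter.inter_mem (Filter.inter_mem h1 ha) (hf (g a)))
  have := (hf2 x x1).2
  rw [show f x = a from x2] at this
  exact this x3

theorem result (κ : Cardinal.{0}) (X : Type) (hκ : Cardinal.aleph0 < κ)
    (hX : Cardinal.mk X = Order.succ κ) (hG : (2 : Cardinal.{0}) ^ κ = Order.succ κ)
    (U : Ultrafilter {x : Set X // Cardinal.mk x < κ})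
    (hf : ∀ a : X, {x : {x : Set X // Cardinal.mk x < κ} | a ∈ x.1} ∈ U)
    (hn : ∀ f : {x : Set X // Cardinal.mk x < κ} → X,
        {x : {x : Set X // Cardinal.mk x < κ} | f x ∈ x.1} ∈ U →
        ∃ a : X, {x : {x : Set X // Cardinal.mk x < κ} | f x = a} ∈ U) :
    ∃ S : Set (Set {x : Set X // Cardinal.mk x < κ}),
      (∀ s ∈ S, s ∈ U) ∧ Cardinal.mk S = (2 : Cardinal.{0}) ^ Order.succ κ ∧
      ∀ T ⊆ S, Cardinal.mk T = κ → ⋂₀ T ∉ U := by
  have hlt : κ < #X := hX ▸ Order.lt_succ κ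
  have : Infinite X := Cardinal.infinite_iff.2 (hκ.trans hlt).le
  obtain ⟨_, _, ho⟩ := Cardinal.exists_ord_eq_type_lt X
  have hio : ∀ a : X, #(Iio a) ≤ κ := fun a =>
    Order.lt_succ_iff.1 (hX ▸ Cardinal.mk_Iio_lt a ho)
  have hc : ∀ a : X, Nonempty (Set (Iio a) ↪ X) := fun a => by
    rw [← Cardinal.le_def, mk_set, hX, ← hG]
    exact power_le_power_left two_ne_zero (hio a)
  let c : ∀ a : X, Set (Iio a) ↪ X := fun a => (hc a).some
  let f : Set X → X → X := fun A a => c a {y | y.1 ∈ A}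
  let Y : Set X → Set {x : Set X // Cardinal.mk x < κ} := fun A =>
    {x | ((∀ a ∈ x.1, f A a ∈ x.1) ∧ ¬ ∃ a, x.1 = {a}) ∨ ∃ a ∈ A, x.1 = {a}}
  have hns : ∀ a b : X, a ≠ b → ∀ x : Set X, a ∈ x → b ∈ x → ¬ ∃ e, x = {e} := by
    rintro a b h x ha hb ⟨e, rfl⟩
    exact h (ha.trans hb.symm)
  have hY : Function.Injective Y := by
    have key : ∀ A a, (⟨{a}, by rw [mk_singleton]; exact one_lt_aleph0.trans hκ⟩ :
        {x : Set X // Cardinal.mk x < κ}) ∈ Y A ↔ a ∈ A := by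
      intro A a
      constructor
      · rintro (h | ⟨b, hb, h⟩)
        · exact absurd ⟨a, rfl⟩ h.2
        · rw [singleton_injective h]; exact hb
      · exact fun h => Or.inr ⟨a, h, rfl⟩
    intro A B h
    ext a
    rw [← key A a, ← key B a, h]
  refine ⟨range Y, ?_, ?_, ?_⟩
  · rintro _ ⟨A, rfl⟩
    obtain ⟨a, b, hab⟩ := exists_pair_ne X
    exact Filter.mem_of_superset (Filter.inter_mem (closed_mem κ X U hf hn (f A))
      (Filter.inter_mem (hf a) (hf b))) fun x hx => Or.inl ⟨hx.1, hns a b hab _ hx.2.1 hx.2.2⟩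
  · rw [mk_range_eq _ hY, mk_set, hX]
  · intro T hT hTk hU
    have h1 : ∀ t : T, ∃ A, Y A = t.1 := fun t => hT t.2
    choose g hg using h1
    have h2 : ∀ p : T × T, ∃ d : X, p.1 ≠ p.2 → ¬ (d ∈ g p.1 ↔ d ∈ g p.2) := by
      intro p
      by_cases e : p.1 = p.2
      · exact ⟨Classical.arbitrary X, fun h => absurd e h⟩
      · have : g p.1 ≠ g p.2 := fun h => e (Subtype.ext (by rw [← hg, ← hg, h]))
        by_contra c
        push Not at c
        exact this (Set.ext fun d => (c d).2)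
    choose d hd using h2
    have h3 : #(⋃ p : T × T, Iic (d p)) ≤ κ := by
      refine (mk_iUnion_le _).trans ?_
      have e1 : #(T × T) = κ := by simp [hTk, mul_eq_self hκ.le]
      have e2 : ⨆ p : T × T, #(Iic (d p)) ≤ κ := ciSup_le' fun p => by
        rw [← Iio_insert]
        exact mk_insert_le.trans ((add_le_add_left (hio _) _).trans (add_one_eq hκ.le).le)
      rw [e1]
      exact (mul_le_mul_right e2 _).trans (mul_eq_self hκ.le).le
    have h4 : ∃ a, a ∉ ⋃ p : T × T, Iic (d p) := by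
      by_contra c
      push Not at c
      rw [eq_univ_of_forall c, mk_univ] at h3
      exact absurd hlt (not_lt.2 h3)
    obtain ⟨a, ha⟩ := h4
    simp only [mem_iUnion, mem_Iic, not_exists, not_le] at ha
    obtain ⟨b, hb⟩ := exists_ne a
    obtain ⟨x, x1, x2, x3⟩ :=
      Ultrafilter.nonempty_of_mem (Filter.inter_mem hU (Filter.inter_mem (hf a) (hf b)))
    have x4 := hns a b hb.symm x.1 x2 x3
    have x5 : ∀ t : T, f (g t) a ∈ x.1 := by
      intro t
      have : x ∈ Y (g t) := by rw [hg]; exact x1 t.1 t.2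
      rcases this with h | ⟨e, _, h⟩
      · exact h.1 a x2
      · exact absurd ⟨e, h⟩ x4
    have x6 : #T ≤ #x.1 := by
      refine mk_le_of_injective (f := fun t => ⟨f (g t) a, x5 t⟩) fun s t h => ?_
      by_contra e
      have h5 := (c a).injective (Subtype.ext_iff.1 h)
      exact hd (s, t) e (Set.ext_iff.1 h5 ⟨d (s, t), ha _⟩)
    exact absurd x.2 (not_lt.2 (hTk.symm.le.trans x6))

end Pool.Agent.Results.MP_a3089e_lc.NotGalvin
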